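import Pool.Agent.Helper32.OIP.Goals

/-!
# OIP, packet O5: equivariance of `Th`
-/

namespace Pool.Agent.Helper59.OIP

open MeasureTheory Pool.Agent.Helper32.OIP Pool.Agent.Helper58.Orb

theorem o5 : GoalO5 := by
  intro hR0 hO1 hO2 hO3 hMA1 A B N _ _ _ _ _ ν _ S S' D L _ _ T T' e₀ Φ Ψ hI
  have hfs : MeasurePreserving (fs : (A → unitInterval × N) → Bern A)
      (pm A ((volume : Measure unitInterval).prod ν)) (bern A) :=
    hMA1.1 A (unitInterval × N) unitInterval ((volume : Measure unitInterval).prod ν)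
      (volume : Measure unitInterval) (fun _ => Prod.fst) (fun _ => measurePreserving_fst)
  refine ⟨?_, ?_⟩
  · have h1 := (hO3 hR0 hO1 hO2 A B S S' D L T T' e₀ Φ Ψ hI).2
    have h2 := hfs.quasiMeasurePreserving.ae h1
    have h3 := hfs.quasiMeasurePreserving.ae hI.left
    filter_upwards [h2, h3] with z h2 h3
    funext a
    have e1 : (Th Ψ (Th Φ z)) a = (Ψ (Φ (fs z)) a, (z (rd Φ (fs z) (rd Ψ (Φ (fs z)) a))).2) := rfl
    rw [e1, h2 a, h3]
    rfl
  · have h1 := (hO1 A B S S' D L T T' e₀ Φ hI.isoL).2.1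
    have h2 := (hO2 hR0 hO1 A B S S' D L T T' e₀ Φ hI.isoL).1
    have h3 := hfs.quasiMeasurePreserving.ae h1
    have h4 := hfs.quasiMeasurePreserving.ae h2
    have h5 := hfs.quasiMeasurePreserving.ae (ae_forall_shift h2)
    filter_upwards [h3, h4, h5] with z h3 h4 h5 s
    set x := fs z with hx
    set g := T.dir s with hg
    set l := lab T T' e₀ Φ x s with hl
    have h6 : Φ (shift g x) = shift (T'.dir l) (Φ x) := h3 s
    funext b
    have e1 : (Th Φ (sh g z)) b = (Φ (shift g x) b, (z (g⁻¹ * rd Φ (shift g x) b)).2) := rfl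
    have e2 : (sh (T'.dir l) (Th Φ z)) b =
        (Φ x ((T'.dir l)⁻¹ * b), (z (rd Φ x ((T'.dir l)⁻¹ * b))).2) := rfl
    have e3 : g⁻¹ * rd Φ (shift g x) b = rd Φ x ((T'.dir l)⁻¹ * b) := by
      unfold rd
      rw [← mul_inv_rev, mul_inv_rev (T'.dir l)⁻¹ b, inv_inv]
      congr 1
      have h7 : Φ (shift (psn Φ (shift g x) b⁻¹ * g) x) = shift (b⁻¹ * T'.dir l) (Φ x) := by
        rw [shift_mul, (h5 g b⁻¹).2.1, h6, ← shift_mul]
      exact (h4 (b⁻¹ * T'.dir l)).1.unique h7 (h4 (b⁻¹ * T'.dir l)).2.1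
    rw [e1, e2, e3, h6]
    rfl

end Pool.Agent.Helper59.OIP
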